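import Pool.Agent.Helper43.Outer.Lip
import Pool.Agent.Helper43.Outer.Main

namespace Pool.Agent.Results.MP_e4cd9c_an.AngularCriterion

open MeasureTheory Pool.Agent.Helper43.Outer
open scoped ENNReal

/-- Weighted composition operators preserving outer functions: the angular derivative criterion,
for the disc as target (first part) and for target polydiscs through slices (second part). -/
theorem result {d : ℕ} {p q : ℝ≥0∞} (hp : p ≠ 0) (hq : q ≠ 0) :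
    (∀ (ψ : (Fin 1 → ℂ) → ℂ) (φ : (Fin 1 → ℂ) → (Fin d → ℂ)), Symbol p q ψ φ →
      (PreservesOuter p q ψ φ →
        IsOuter q ψ ∧ ∀ t i j, i ≠ j → ¬ (HasAD φ i t ∧ HasAD φ j t)) ∧
      ({t | Bad φ t}.Countable →
        (PreservesOuter p q ψ φ ↔
          IsOuter q ψ ∧ ∀ t i j, i ≠ j → ¬ (HasAD φ i t ∧ HasAD φ j t))) ∧
      (∀ t, Bad φ t → Contact φ t) ∧
      ((∃ L : NNReal, LipschitzOnWith L φ (polydisc 1)) →
        (PreservesOuter p q ψ φ ↔ IsOuter q ψ ∧ ∀ t, ¬ Contact φ t))) ∧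
    (∀ (d' : ℕ) (ψ : (Fin d' → ℂ) → ℂ) (φ : (Fin d' → ℂ) → (Fin d → ℂ)), Symbol p q ψ φ →
      (∀ᵐ s : Torus d', {t | Bad (cut φ s) t}.Countable) →
      (∃ S : Set (ℂ × ℂ), S.Countable ∧ ∀ᵐ s : Torus d', ∀ t i j, i ≠ j → ∀ a b,
        ADat (cut φ s) i t a → ADat (cut φ s) j t b → (a, b) ∈ S) →
      (PreservesOuter p q ψ φ ↔ IsOuter q ψ ∧
        ∀ᵐ s : Torus d', ∀ t i j, i ≠ j → ¬ (HasAD (cut φ s) i t ∧ HasAD (cut φ s) j t))) :=
  ⟨fun _ _ h => ⟨fun hT => ⟨psi_outer hT, fun t _ _ hij => necessity h hT t hij⟩,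
    fun hc => criterion_disc hp hq h hc, fun _ ht => contact_of_bad h.phi h.maps ht,
    fun ⟨_, hL⟩ => preserves_lip h hL⟩, fun _ _ _ h h1 h2 => criterion_cut hp hq h h1 h2⟩

end Pool.Agent.Results.MP_e4cd9c_an.AngularCriterion
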