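import Pool.Agent.Helper43.Outer.Majorant

namespace Pool.Agent.Results.MP_e4cd9c_an.CommonMajorants

open MeasureTheory Pool.Agent.Helper43.Outer
open scoped ENNReal

/-- A necessary condition for all exponents and all polydiscs: if the weighted composition operator
preserves outer functions, then for two different coordinates of the symbol and two holomorphic
functions A, B on the disc with positive real part, the minimum of the real parts of A(φ_i) and
B(φ_j) is dominated by the Poisson integral of an integrable function. -/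
theorem result {d d' : ℕ} {p q : ℝ≥0∞} {ψ : (Fin d' → ℂ) → ℂ} {φ : (Fin d' → ℂ) → (Fin d → ℂ)}
    (h : Symbol p q ψ φ) (hT : PreservesOuter p q ψ φ) {i j : Fin d} (hij : i ≠ j)
    {A B : ℂ → ℂ} (hA : DifferentiableOn ℂ A (Metric.ball 0 1))
    (hA0 : ∀ z ∈ Metric.ball (0 : ℂ) 1, 0 < (A z).re)
    (hB : DifferentiableOn ℂ B (Metric.ball 0 1))
    (hB0 : ∀ z ∈ Metric.ball (0 : ℂ) 1, 0 < (B z).re) :
    ∃ v : Torus d' → ℝ, Integrable v ∧
      ∀ z ∈ polydisc d', min (A (φ z i)).re (B (φ z j)).re ≤ ∫ t, P z t * v t :=
  majorant h hT hij hA hA0 hB hB0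

end Pool.Agent.Results.MP_e4cd9c_an.CommonMajorants
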