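import Pool.Agent.Helper43.Outer.Compare

namespace Pool.Agent.Results.MP_e4cd9c_an.ComparableCoordinates

open MeasureTheory Pool.Agent.Helper43.Outer
open scoped ENNReal

/-- Symbols whose coordinates stay at bounded hyperbolic distance from unimodular multiples of one
function Φ, bounded outer functions: the operator preserves outer functions exactly when its weight
is outer and every Clark (Aleksandrov) measure of Φ is absolutely continuous. -/
theorem result {d d' : ℕ} (hd : 2 ≤ d) {q : ℝ≥0∞} {ψ : (Fin d' → ℂ) → ℂ}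
    {φ : (Fin d' → ℂ) → (Fin d → ℂ)} (h : Symbol ∞ q ψ φ) (c : Torus d) {Φ : (Fin d' → ℂ) → ℂ}
    (hΦ : DifferentiableOn ℂ Φ (polydisc d')) (hΦm : ∀ z ∈ polydisc d', ‖Φ z‖ < 1) {κ : ℝ}
    (hκ0 : 0 < κ) (hκ : κ < 1)
    (hcl : ∀ z ∈ polydisc d', ∀ i, ‖φ z i - e (c i) * Φ z‖ ≤
      κ * ‖1 - (starRingEnd ℂ) (e (c i) * Φ z) * φ z i‖) :
    PreservesOuter ∞ q ψ φ ↔ IsOuter q ψ ∧ ∀ α : UnitAddCircle, ∃ v : Torus d' → ℝ,
      Integrable v ∧
        ∀ z ∈ polydisc d', (1 - ‖Φ z‖ ^ 2) / ‖e α - Φ z‖ ^ 2 = ∫ t, P z t * v t :=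
  compare_iff hd h c hΦ hΦm hκ0 hκ hcl

end Pool.Agent.Results.MP_e4cd9c_an.ComparableCoordinates
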