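import Pool.Agent.Helper43.Outer.KerSep

namespace Pool.Agent.Results.MP_e4cd9c_an.KernelCondition

open MeasureTheory Pool.Agent.Helper43.Outer
open scoped ENNReal

/-- If the integrals of the Poisson kernel along the dilated symbol are bounded, then the weighted
composition operator preserves outer functions exactly when its weight is outer. The integrals are
bounded when at each point at most one coordinate of the symbol is close to the unit circle. -/
theorem result {d d' : ℕ} {p q : ℝ≥0∞} {ψ : (Fin d' → ℂ) → ℂ} {φ : (Fin d' → ℂ) → (Fin d → ℂ)}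
    (h : Symbol p q ψ φ) :
    ((∃ C : ℝ, ∀ r : ℝ, 0 ≤ r → r < 1 → ∀ w : Torus d, ∫ t : Torus d', P (φ (pt r t)) w ≤ C) →
      (PreservesOuter p q ψ φ ↔ IsOuter q ψ)) ∧
    ((∃ δ : ℝ, 0 < δ ∧ ∀ z ∈ polydisc d', ∀ i j, i ≠ j → ‖φ z i‖ ≤ 1 - δ ∨ ‖φ z j‖ ≤ 1 - δ) →
      ∃ C : ℝ, ∀ r : ℝ, 0 ≤ r → r < 1 → ∀ w : Torus d, ∫ t : Torus d', P (φ (pt r t)) w ≤ C) :=
  ⟨fun hK => preserves_of_kernel h hK, fun hs => kernel_of_separated h.phi h.maps hs⟩

end Pool.Agent.Results.MP_e4cd9c_an.KernelCondition
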